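import Mathlib

set_option autoImplicit false

namespace Pool.Agent.Results.MP_a87573_co.Roots

open Finset Polynomial

/-- The number of edge coverings of `G` with exactly `i` edges. -/
def coverCount {V : Type} [Fintype V] [DecidableEq V] (G : SimpleGraph V) [DecidableRel G.Adj]
    (i : ℕ) : ℕ :=
  (G.edgeFinset.powerset.filter (fun S => S.card = i ∧ ∀ v : V, ∃ e ∈ S, v ∈ e)).card

/-- The edge cover polynomial. -/
noncomputable def coverPoly {V : Type} [Fintype V] [DecidableEq V] (G : SimpleGraph V)
    [DecidableRel G.Adj] : ℂ[X] :=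
  ∑ i ∈ range (G.edgeFinset.card + 1), C (coverCount G i : ℂ) * X ^ i

theorem gap (P : ℂ[X]) (m d : ℕ) (hd : 1 ≤ d) (hdm : d ≤ m) (h0 : P.coeff 0 = 0)
    (hR : ((1 + X) ^ m - P).natDegree ≤ m - d) : d ≤ P.roots.toFinset.card := by
  classical
  set R := (1 + X : ℂ[X]) ^ m - P with hRdef
  have hP : P = (1 + X) ^ m - R := by rw [hRdef]; ring
  have hm1 : ((1 + X : ℂ[X]) ^ m).natDegree = m := by
    rw [natDegree_pow, add_comm, ← C_1, natDegree_X_add_C, mul_one]
  have hdeg : P.natDegree = m := by
    rw [hP, natDegree_sub_eq_left_of_natDegree_lt (by omega), hm1]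
  have hP0 : P ≠ 0 := by
    rintro rfl
    simp at hdeg
    omega
  set Q := (1 + X) * derivative P - C (m : ℂ) * P with hQ
  have hQR : Q = C (m : ℂ) * R - (1 + X) * derivative R := by
    have : (1 + X : ℂ[X]) * derivative ((1 + X) ^ m) = C (m : ℂ) * (1 + X) ^ m := by
      obtain ⟨k, rfl⟩ : ∃ k, m = k + 1 := ⟨m - 1, by omega⟩
      rw [derivative_pow]
      simp only [derivative_add, derivative_one, derivative_X, Nat.add_sub_cancel]
      ring
    rw [hQ, hP, derivative_sub]
    linear_combination this
  have hQdeg : Q.natDegree ≤ m - d := by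
    rw [hQR]
    refine (natDegree_sub_le _ _).trans (max_le ((natDegree_C_mul_le _ _).trans hR) ?_)
    rw [natDegree_le_iff_coeff_eq_zero]
    intro N hN
    obtain ⟨k, rfl⟩ : ∃ k, N = k + 1 := ⟨N - 1, by omega⟩
    rw [add_mul, one_mul, coeff_add, coeff_X_mul, coeff_derivative, coeff_derivative,
      coeff_eq_zero_of_natDegree_lt (by omega : R.natDegree < k + 1 + 1),
      coeff_eq_zero_of_natDegree_lt (by omega : R.natDegree < k + 1)]
    simp
  have hQ0 : Q ≠ 0 := by
    intro h
    apply hP0
    have key : ∀ i, P.coeff i = 0 := by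
      intro i
      induction i with
      | zero => exact h0
      | succ i ih =>
        have := congrArg (fun p => coeff p i) h
        simp only [hQ, coeff_sub, add_mul, one_mul, coeff_add, coeff_C_mul, coeff_zero,
          coeff_derivative, ih, mul_zero, sub_zero] at this
        have h2 : (X * derivative P).coeff i = 0 := by
          rcases i with _ | i
          · simp
          · rw [coeff_X_mul, coeff_derivative, ih, zero_mul]
        rw [h2, add_zero] at this
        rcases mul_eq_zero.1 this with h3 | h3
        · exact h3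
        · exact absurd h3 (by exact_mod_cast Nat.succ_ne_zero i)
    ext i
    simp [key i]
  set D : ℂ[X] := ∏ a ∈ P.roots.toFinset, (X - C a) ^ (P.roots.count a - 1) with hD
  have hdvd : D ∣ Q := by
    apply Finset.prod_dvd_of_coprime
    · intro a _ b _ hab
      exact (pairwise_coprime_X_sub_C (s := id) Function.injective_id hab).pow
    · intro a _
      have h1 : (X - C a) ^ (P.roots.count a) ∣ P := by
        rw [count_roots]; exact pow_rootMultiplicity_dvd P a
      exact dvd_sub (Dvd.dvd.mul_left (pow_sub_one_dvd_derivative_of_pow_dvd h1) _)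
        (Dvd.dvd.mul_left ((pow_dvd_pow _ (Nat.sub_le _ _)).trans h1) _)
  have hDdeg : D.natDegree + P.roots.toFinset.card = m := by
    rw [hD, natDegree_prod_of_monic _ _ (fun a _ => (monic_X_sub_C a).pow _), card_eq_sum_ones,
      ← sum_add_distrib, ← hdeg, (IsAlgClosed.splits P).natDegree_eq_card_roots,
      ← Multiset.toFinset_sum_count_eq]
    refine sum_congr rfl (fun a ha => ?_)
    have : 0 < P.roots.count a := Multiset.count_pos.2 (Multiset.mem_toFinset.1 ha)
    rw [natDegree_pow, natDegree_X_sub_C]
    omega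
  have := natDegree_le_of_dvd hdvd hQ0
  omega

theorem result {V : Type} [Fintype V] [DecidableEq V] (G : SimpleGraph V) [DecidableRel G.Adj] :
    G.minDegree ≤ (coverPoly G).roots.toFinset.card := by
  classical
  rcases Nat.eq_zero_or_pos G.minDegree with h0 | hd
  · omega
  have hne : Nonempty V := by
    by_contra h
    rw [not_nonempty_iff] at h
    simp at hd
  obtain ⟨v0⟩ := hne
  set m := G.edgeFinset.card with hm
  have hinc : ∀ v, (G.edgeFinset.filter (fun e => v ∈ e)).card = G.degree v := by
    intro v
    rw [← G.incidenceFinset_eq_filter, G.card_incidenceFinset_eq_degree]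
  have hdm : G.minDegree ≤ m := by
    refine (G.minDegree_le_degree v0).trans ?_
    rw [← hinc]
    exact card_filter_le _ _
  have hpoly : coverPoly G =
      ∑ S ∈ G.edgeFinset.powerset.filter (fun S => ∀ v : V, ∃ e ∈ S, v ∈ e), X ^ S.card := by
    rw [← sum_fiberwise_of_maps_to (t := range (m + 1)) (g := fun S => S.card)]
    · refine sum_congr rfl (fun i _ => ?_)
      rw [sum_congr rfl (g := fun _ => X ^ i) (fun S hS => by rw [(mem_filter.1 hS).2]),
        sum_const, filter_filter, nsmul_eq_mul, coverCount]
      simp only [and_comm, map_natCast]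
    · intro S hS
      have := card_le_card (mem_powerset.1 (mem_filter.1 hS).1)
      exact mem_range.2 (by omega)
  have hall : (1 + X : ℂ[X]) ^ m = ∑ S ∈ G.edgeFinset.powerset, X ^ S.card := by
    rw [hm, ← prod_const, prod_one_add]
    simp
  apply gap _ m _ hd hdm
  · rw [hpoly, finsetSum_coeff]
    refine sum_eq_zero (fun S hS => ?_)
    obtain ⟨e, he, _⟩ := (mem_filter.1 hS).2 v0
    have : S.card ≠ 0 := card_ne_zero_of_mem he
    rw [coeff_X_pow, if_neg this.symm]
  · rw [hall, hpoly, ← sum_filter_add_sum_filter_not _ (fun S => ∀ v : V, ∃ e ∈ S, v ∈ e),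
      add_sub_cancel_left]
    refine natDegree_sum_le_of_forall_le _ _ (fun S hS => ?_)
    rw [natDegree_X_pow]
    obtain ⟨h1, h2⟩ := mem_filter.1 hS
    push Not at h2
    obtain ⟨v, hv⟩ := h2
    have h3 : S ⊆ G.edgeFinset.filter (fun e => ¬ v ∈ e) :=
      fun e he => mem_filter.2 ⟨mem_powerset.1 h1 he, hv e he⟩
    have h4 := card_le_card h3
    have h5 := card_filter_add_card_filter_not (s := G.edgeFinset) (fun e => v ∈ e)
    have h6 := G.minDegree_le_degree v
    rw [hinc] at h5
    omega

end Pool.Agent.Results.MP_a87573_co.Roots
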